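import Pool.Agent.Lib.MP_cb01cb_al.Tree

set_option autoImplicit false

namespace Pool.Agent.Results.MP_cb01cb_al.MersenneClass

open Pool.Agent.Lib.MP_cb01cb_al

/-- For a Mersenne prime `p = 2 ^ m - 1` there is a finite group in which `p` divides no composite
element order, with a normal 2-subgroup `N` of nilpotency class at least `2 ^ (m - 1) - 1`, that is
`(p - 1) / 2`, and quotient `SL(2, 2 ^ m)`. -/
theorem result (m : ℕ) (hp : (2 ^ m - 1).Prime) :
    ∃ (G : Type) (_ : Group G) (_ : Finite G),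
      (∀ g : G, orderOf g ≠ 1 → ¬ (orderOf g).Prime → ¬ 2 ^ m - 1 ∣ orderOf g) ∧
      ∃ (N : Subgroup G) (_ : N.Normal), IsPGroup 2 N ∧
        Nonempty (G ⧸ N ≃* Matrix.SpecialLinearGroup (Fin 2) (GaloisField 2 m)) ∧
        2 ^ (m - 1) - 1 ≤ Group.nilpotencyClass N := by
  have hm : 2 ≤ m := by
    by_contra h
    have h1 : m = 0 ∨ m = 1 := by omega
    rcases h1 with rfl | rfl <;> exact absurd hp (by decide)
  obtain ⟨k, rfl⟩ : ∃ k, m = k + 1 := ⟨m - 1, by omega⟩
  have := Fintype.ofFinite (GaloisField 2 (k + 1))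
  obtain ⟨G, i1, i2, h1, h2⟩ := exists_group' (F := GaloisField 2 (k + 1)) (k := k) hp
    (by rw [← Nat.card_eq_fintype_card, GaloisField.card 2 (k + 1) (by omega)])
  exact ⟨G, i1, i2, fun g _ h3 h4 => h3 (h1 g h4 ▸ hp), h2⟩

end Pool.Agent.Results.MP_cb01cb_al.MersenneClass
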